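import Pool.Agent.Helper49.LT.StB

/-!
# Project LT, module CI2: the integral of the lower bound of the chord height
-/

set_option autoImplicit false

namespace Pool.Agent.Helper12.LT

open Helper49.LT Helper97.CB MeasureTheory Set Filter Metric

/-- shift functions close to the constant `c` -/
structure Sh (δ c : ℝ) (s s' : ℝ → ℝ) : Prop where
  per : ∀ u, s (u + 2 * Real.pi) = s u
  der : ∀ u, HasDerivAt s (s' u) u
  con : Continuous s'
  bd' : ∀ u, |s' u| ≤ δ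
  bd : ∀ u, |s u - c| ≤ δ

theorem Sh.cont {δ c : ℝ} {s s' : ℝ → ℝ} (h : Sh δ c s s') : Continuous s :=
  continuous_iff_continuousAt.2 fun u => (h.der u).continuousAt

theorem Sh.mono {δ δ₂ c : ℝ} {s s' : ℝ → ℝ} (h : Sh δ c s s') (h2 : δ ≤ δ₂) : Sh δ₂ c s s' where
  per := h.per
  der := h.der
  con := h.con
  bd' := fun u => (h.bd' u).trans h2
  bd := fun u => (h.bd u).trans h2

theorem Sh.lip {δ c : ℝ} {s s' : ℝ → ℝ} (h : Sh δ c s s') (u v : ℝ) :
    |s u - s v| ≤ δ * |u - v| := by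
  have h1 := Convex.norm_image_sub_le_of_norm_hasDerivWithin_le (f := s) (f' := s') (C := δ)
    (s := univ) (x := v) (y := u)
    (fun x _ => (h.der x).hasDerivWithinAt) (fun x _ => by simpa using h.bd' x)
    convex_univ (mem_univ _) (mem_univ _)
  simpa using h1

theorem rough_of_lip {δ : ℝ} {θ : ℝ → ℝ} (per : ∀ u, θ (u + 2 * Real.pi) = θ u)
    (hd : ∀ u, DifferentiableWithinAt ℝ θ (Ioi u) u)
    (lip : ∀ u v, |θ u - θ v| ≤ δ * |u - v|) (bdd : ∀ u, |θ u| ≤ δ) :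
    Rough δ θ (fun u => derivWithin θ (Ioi u) u) := by
  have hδ : 0 ≤ δ := (abs_nonneg _).trans (bdd 0)
  have hder : ∀ u, HasDerivWithinAt θ (derivWithin θ (Ioi u) u) (Ioi u) u :=
    fun u => (hd u).hasDerivWithinAt
  refine ⟨per, ?_, ?_, hder, measurable_derivWithin_Ioi θ, bdd, ?_⟩
  · intro u
    have h1 := hder (u + 2 * Real.pi)
    have h2 : HasDerivWithinAt (fun t : ℝ => t + 2 * Real.pi) 1 (Ioi u) u :=
      ((hasDerivAt_id u).add_const (2 * Real.pi)).hasDerivWithinAt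
    have h3 : MapsTo (fun t : ℝ => t + 2 * Real.pi) (Ioi u) (Ioi (u + 2 * Real.pi)) := by
      intro t ht
      simp only [mem_Ioi] at ht ⊢
      linarith
    have h4 : HasDerivWithinAt (θ ∘ fun t : ℝ => t + 2 * Real.pi)
        (derivWithin θ (Ioi (u + 2 * Real.pi)) (u + 2 * Real.pi) * 1) (Ioi u) u :=
      HasDerivWithinAt.comp u h1 h2 h3
    have h5 : (θ ∘ fun t : ℝ => t + 2 * Real.pi) = θ := by
      funext t; exact per t
    rw [h5, mul_one] at h4
    exact (uniqueDiffWithinAt_Ioi u).eq_deriv _ h4 (hder u)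
  · have : LipschitzWith (Real.toNNReal δ) θ := by
      apply LipschitzWith.of_dist_le_mul
      intro u v
      rw [Real.dist_eq, Real.dist_eq, Real.coe_toNNReal _ hδ]
      exact lip u v
    exact this.continuous
  · intro u
    have h1 := hasDerivWithinAt_iff_tendsto_slope.1 (hder u)
    have h2 : Tendsto (fun y => |slope θ u y|) (nhdsWithin u (Ioi u \ {u}))
        (nhds |derivWithin θ (Ioi u) u|) := h1.abs
    have h3 : Ioi u \ {u} = Ioi u := by
      ext t; simp only [Set.mem_sdiff, mem_Ioi, mem_singleton_iff]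
      constructor
      · exact fun h => h.1
      · exact fun h => ⟨h, ne_of_gt h⟩
    rw [h3] at h2
    refine le_of_tendsto h2 ?_
    filter_upwards [self_mem_nhdsWithin] with y hy
    have hy' : u < y := hy
    rw [slope_def_field, abs_div]
    rw [div_le_iff₀ (abs_pos.2 (sub_ne_zero.2 (ne_of_gt hy')))]
    exact lip y u

/-- the function `u ↦ w (u + s u)` -/
theorem aData {δ c η : ℝ} {s s' w w' : ℝ → ℝ} (h : Sh δ c s s') (hδ : δ ≤ 1 / 10)
    (hw : Rough η w w') :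
    (∀ u, w (u + 2 * Real.pi + s (u + 2 * Real.pi)) = w (u + s u)) ∧
    (∀ u, DifferentiableWithinAt ℝ (fun t => w (t + s t)) (Ioi u) u) ∧
    (∀ u v, |w (u + s u) - w (v + s v)| ≤ 2 * η * |u - v|) := by
  have hη := hw.eta_nonneg
  refine ⟨?_, ?_, ?_⟩
  · intro u
    rw [h.per, show u + 2 * Real.pi + s u = u + s u + 2 * Real.pi by ring, hw.per]
  · intro u
    have h1 := hw.der (u + s u)
    have h2 : HasDerivWithinAt (fun t => t + s t) (1 + s' u) (Ioi u) u :=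
      ((hasDerivAt_id u).add (h.der u)).hasDerivWithinAt
    have h3 : MapsTo (fun t : ℝ => t + s t) (Ioi u) (Ioi (u + s u)) := by
      intro t ht
      simp only [mem_Ioi] at ht ⊢
      have h4 := h.lip t u
      rw [abs_of_pos (sub_pos.2 ht)] at h4
      have h5 := (abs_le.1 h4).1
      have h6 : δ * (t - u) ≤ 1 / 10 * (t - u) :=
        mul_le_mul_of_nonneg_right hδ (sub_pos.2 ht).le
      linarith
    have h4 : HasDerivWithinAt (w ∘ fun t : ℝ => t + s t) (w' (u + s u) * (1 + s' u)) (Ioi u) u :=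
      HasDerivWithinAt.comp u h1 h2 h3
    exact h4.differentiableWithinAt
  · intro u v
    have h1 := hw.lip (u + s u) (v + s v)
    have h2 := h.lip u v
    have h3 : |u + s u - (v + s v)| ≤ |u - v| + |s u - s v| := by
      rw [show u + s u - (v + s v) = (u - v) + (s u - s v) by ring]
      exact abs_add_le _ _
    have h4 : δ * |u - v| ≤ 1 / 10 * |u - v| := mul_le_mul_of_nonneg_right hδ (abs_nonneg _)
    have h5 : |u + s u - (v + s v)| ≤ 2 * |u - v| := by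
      have := abs_nonneg (u - v)
      linarith
    calc |w (u + s u) - w (v + s v)| ≤ η * |u + s u - (v + s v)| := h1
      _ ≤ η * (2 * |u - v|) := mul_le_mul_of_nonneg_left h5 hη
      _ = 2 * η * |u - v| := by ring

/-- the substitution `τ = u + s u` for a measurable periodic function -/
theorem subst {δ c : ℝ} {s s' g : ℝ → ℝ} (h : Sh δ c s s') (hδ : δ ≤ 1 / 10)
    (hg : ∀ t, g (t + 2 * Real.pi) = g t) :
    ∫ u in (0 : ℝ)..(2 * Real.pi), g (u + s u) * (1 + s' u) =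
      ∫ t in (0 : ℝ)..(2 * Real.pi), g t := by
  have h1 := intervalIntegral.integral_comp_mul_deriv_of_deriv_nonneg (a := 0) (b := 2 * Real.pi)
    (f := fun u => u + s u) (f' := fun u => 1 + s' u) (g := g)
    ((continuous_id.add h.cont).continuousOn)
    (fun u _ => (hasDerivAt_id u).add (h.der u))
    (fun u _ => by
      have := (abs_le.1 (h.bd' u)).1
      show 0 ≤ 1 + s' u
      linarith)
  have hp : Function.Periodic g (2 * Real.pi) := hg
  have h2 := hp.intervalIntegral_add_eq (0 + s 0) 0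
  have h3 : (2 * Real.pi + s (2 * Real.pi)) = 0 + s 0 + 2 * Real.pi := by
    have := h.per 0
    rw [zero_add] at this
    rw [this]; ring
  rw [zero_add (2 * Real.pi)] at h2
  simp only [Function.comp_apply] at h1
  rw [h1, h3, h2]

theorem q2_nonneg (w : ℝ → ℝ) : 0 ≤ q2 w := by
  unfold q2
  exact intervalIntegral.integral_nonneg (by positivity) (fun _ _ => sq_nonneg _)

theorem q2_le {η : ℝ} {w w' : ℝ → ℝ} (h : Rough η w w')
    (h0 : ∫ t in (0 : ℝ)..(2 * Real.pi), w t = 0) : q2 w ≤ 40 * q2 w' := by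
  have hpi := Real.pi_pos
  have hpi2 : (0 : ℝ) ≤ 2 * Real.pi := by positivity
  set M : ℝ := ∫ t in (0 : ℝ)..(2 * Real.pi), |w' t| with hM
  have hM0 : 0 ≤ M := intervalIntegral.integral_nonneg hpi2 (fun _ _ => abs_nonneg _)
  have hi : ∀ a b, IntervalIntegrable (fun t => |w' t|) volume a b := fun a b => (h.int' a b).abs
  have hb : ∀ a b : ℝ, 0 ≤ a → a ≤ b → b ≤ 2 * Real.pi → |w b - w a| ≤ M := by
    intro a b ha hab hb
    rw [← h.ftc a b]
    calc |∫ t in a..b, w' t| ≤ ∫ t in a..b, |w' t| := intervalIntegral.abs_integral_le_integral_abs hab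
      _ ≤ M := intervalIntegral.integral_mono_interval ha hab hb
          (Eventually.of_forall fun _ => abs_nonneg _) (hi _ _)
  have hb2 : ∀ a b : ℝ, 0 ≤ a → 0 ≤ b → a ≤ 2 * Real.pi → b ≤ 2 * Real.pi → |w b - w a| ≤ M := by
    intro a b ha hb' ha2 hb2
    rcases le_total a b with hab | hab
    · exact hb a b ha hab hb2
    · rw [abs_sub_comm]; exact hb b a hb' hab ha2
  have hw : ∀ t : ℝ, 0 ≤ t → t ≤ 2 * Real.pi → |w t| ≤ M := by
    intro t ht ht2
    have h1 : ∫ a in (0 : ℝ)..(2 * Real.pi), (w t - w a) = 2 * Real.pi * w t := by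
      rw [intervalIntegral.integral_sub intervalIntegrable_const (h.int _ _), h0,
        intervalIntegral.integral_const]
      simp
    have h2 : ‖∫ a in (0 : ℝ)..(2 * Real.pi), (w t - w a)‖ ≤ M * |2 * Real.pi - 0| := by
      apply intervalIntegral.norm_integral_le_of_norm_le_const
      intro a ha
      rw [uIoc_of_le hpi2] at ha
      exact hb2 a t ha.1.le ht ha.2 ht2
    rw [h1, Real.norm_eq_abs, abs_mul, sub_zero, abs_of_nonneg hpi2] at h2
    have h3 : (0 : ℝ) < 2 * Real.pi := by positivity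
    nlinarith
  have hq : q2 w ≤ 2 * Real.pi * M ^ 2 := by
    unfold q2
    calc ∫ t in (0 : ℝ)..(2 * Real.pi), w t ^ 2 ≤ ∫ _ in (0 : ℝ)..(2 * Real.pi), M ^ 2 := by
          apply intervalIntegral.integral_mono_on hpi2
            ((h.con.pow 2).intervalIntegrable _ _) intervalIntegrable_const
          intro t ht
          have := hw t ht.1 ht.2
          show w t ^ 2 ≤ M ^ 2
          rw [← sq_abs (w t)]
          exact pow_le_pow_left₀ (abs_nonneg _) this 2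
      _ = 2 * Real.pi * M ^ 2 := by
          rw [intervalIntegral.integral_const]; simp
  have hw2 : IntervalIntegrable (fun t => w' t ^ 2) volume 0 (2 * Real.pi) := by
    have hc : IntervalIntegrable (fun _ : ℝ => η ^ 2) volume 0 (2 * Real.pi) :=
      intervalIntegrable_const
    refine hc.mono_fun (h.mea.pow_const 2).aestronglyMeasurable ?_
    filter_upwards with x
    have := h.bdd' x
    rw [Real.norm_eq_abs, Real.norm_eq_abs, abs_of_nonneg (sq_nonneg _),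
      abs_of_nonneg (sq_nonneg _), ← sq_abs (w' x)]
    exact pow_le_pow_left₀ (abs_nonneg _) this 2
  have hcs : M ^ 2 ≤ 2 * Real.pi * q2 w' := by
    have h1 : 0 ≤ ∫ t in (0 : ℝ)..(2 * Real.pi), (2 * Real.pi * |w' t| - M) ^ 2 :=
      intervalIntegral.integral_nonneg hpi2 (fun _ _ => sq_nonneg _)
    have h2 : ∀ t, (2 * Real.pi * |w' t| - M) ^ 2 =
        (2 * Real.pi) ^ 2 * w' t ^ 2 - (2 * (2 * Real.pi) * M) * |w' t| + M ^ 2 := by
      intro t
      rw [← sq_abs (w' t)]; ring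
    simp only [h2] at h1
    rw [intervalIntegral.integral_add ((hw2.const_mul _).sub ((hi _ _).const_mul _))
      intervalIntegrable_const,
      intervalIntegral.integral_sub (hw2.const_mul _) ((hi _ _).const_mul _),
      intervalIntegral.integral_const_mul, intervalIntegral.integral_const_mul,
      intervalIntegral.integral_const] at h1
    simp only [sub_zero, smul_eq_mul] at h1
    rw [← hM] at h1
    have h3 : (∫ t in (0 : ℝ)..(2 * Real.pi), w' t ^ 2) = q2 w' := rfl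
    rw [h3] at h1
    have h4 : 0 ≤ 2 * Real.pi * (2 * Real.pi * q2 w' - M ^ 2) := by nlinarith
    have h5 : (0 : ℝ) < 2 * Real.pi := by positivity
    have h6 := nonneg_of_mul_nonneg_right h4 h5
    linarith
  have hQ := q2_nonneg w'
  have hpi3 := Real.pi_lt_d2
  have h7 : (2 * Real.pi) * (2 * Real.pi) ≤ 40 := by nlinarith
  calc q2 w ≤ 2 * Real.pi * M ^ 2 := hq
    _ ≤ 2 * Real.pi * (2 * Real.pi * q2 w') := mul_le_mul_of_nonneg_left hcs hpi2
    _ = (2 * Real.pi) * (2 * Real.pi) * q2 w' := by ring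
    _ ≤ 40 * q2 w' := mul_le_mul_of_nonneg_right h7 hQ

/-- `∫ w'(u+c) w(u+c) = 0` -/
theorem int_self {η : ℝ} {w w' : ℝ → ℝ} (h : Rough η w w') (c : ℝ) :
    ∫ u in (0 : ℝ)..(2 * Real.pi), w' (u + c) * w (u + c) = 0 := by
  rw [integral_shift (fun t => w' t * w t) (fun t => by simp only [h.per, h.per']) c]
  have hi : IntervalIntegrable (fun t => w' t * w t) volume 0 (2 * Real.pi) :=
    (h.int' _ _).mul_continuousOn h.con.continuousOn
  have h1 : ∫ t in (0 : ℝ)..(2 * Real.pi), (w' t * w t + w t * w' t) =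
      (w * w) (2 * Real.pi) - (w * w) 0 :=
    intervalIntegral.integral_eq_sub_of_hasDeriv_right (h.con.mul h.con).continuousOn
      (fun x _ => (h.der x).mul (h.der x))
      (by simpa only [mul_comm (w _)] using! hi.add hi)
  have h2 := h.per 0
  rw [zero_add] at h2
  have h3 : ∀ t, w' t * w t + w t * w' t = 2 * (w' t * w t) := fun t => by ring
  simp only [h3, Pi.mul_apply, h2, sub_self] at h1
  rw [intervalIntegral.integral_const_mul] at h1
  linarith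

/-- `∫ w'(u+π/3) w(u-π/3) = iI` -/
theorem int_p {η : ℝ} {w w' : ℝ → ℝ} (h : Rough η w w') :
    ∫ u in (0 : ℝ)..(2 * Real.pi), w' (u + Real.pi / 3) * w (u + -(Real.pi / 3)) = iI w w' := by
  have h1 := integral_shift (fun t => w' (t + 2 * Real.pi / 3) * w t)
    (fun t => by
      show w' (t + 2 * Real.pi + 2 * Real.pi / 3) * w (t + 2 * Real.pi) = _
      rw [show t + 2 * Real.pi + 2 * Real.pi / 3 = t + 2 * Real.pi / 3 + 2 * Real.pi by ring,
        h.per, h.per']) (-(Real.pi / 3))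
  unfold iI
  rw [← h1]
  apply intervalIntegral.integral_congr
  intro u _
  show _ = w' (u + -(Real.pi / 3) + 2 * Real.pi / 3) * w (u + -(Real.pi / 3))
  rw [show u + -(Real.pi / 3) + 2 * Real.pi / 3 = u + Real.pi / 3 by ring]

/-- `∫ w'(u-π/3) w(u+π/3) = -iI` -/
theorem int_m {η : ℝ} {w w' : ℝ → ℝ} (h : Rough η w w') :
    ∫ u in (0 : ℝ)..(2 * Real.pi), w' (u + -(Real.pi / 3)) * w (u + Real.pi / 3) = -iI w w' := by
  rw [← int_p h]
  have hs : ∀ c : ℝ, ∀ u : ℝ, HasDerivWithinAt (fun t => w (t + c)) (w' (u + c)) (Ioi u) u := by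
    intro c u
    have h1 := h.der (u + c)
    have h2 : HasDerivWithinAt (fun t : ℝ => t + c) 1 (Ioi u) u :=
      ((hasDerivAt_id u).add_const c).hasDerivWithinAt
    have h3 : MapsTo (fun t : ℝ => t + c) (Ioi u) (Ioi (u + c)) := by
      intro t ht
      simp only [mem_Ioi] at ht ⊢
      linarith
    have h4 : HasDerivWithinAt (w ∘ fun t : ℝ => t + c) (w' (u + c) * 1) (Ioi u) u :=
      HasDerivWithinAt.comp u h1 h2 h3
    rw [mul_one] at h4
    exact h4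
  have hc : ∀ c : ℝ, Continuous (fun t => w (t + c)) := fun c =>
    h.con.comp (continuous_id.add continuous_const)
  have hi : ∀ c d : ℝ, IntervalIntegrable (fun u => w' (u + c) * w (u + d)) volume 0
      (2 * Real.pi) := by
    intro c d
    have h1 : IntervalIntegrable (fun u => w' (u + c)) volume 0 (2 * Real.pi) := by
      have := (h.int' (0 + c) (2 * Real.pi + c)).comp_add_right c
      simpa using this
    exact h1.mul_continuousOn (hc d).continuousOn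
  have h1 : ∫ t in (0 : ℝ)..(2 * Real.pi), (w' (t + -(Real.pi / 3)) * w (t + Real.pi / 3) +
      w (t + -(Real.pi / 3)) * w' (t + Real.pi / 3)) =
      (fun t => w (t + -(Real.pi / 3)) * w (t + Real.pi / 3)) (2 * Real.pi) -
      (fun t => w (t + -(Real.pi / 3)) * w (t + Real.pi / 3)) 0 :=
    intervalIntegral.integral_eq_sub_of_hasDeriv_right
      ((hc (-(Real.pi / 3))).mul (hc (Real.pi / 3))).continuousOn
      (fun x _ => (hs (-(Real.pi / 3)) x).mul (hs (Real.pi / 3) x))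
      ((hi _ _).add (by simpa only [mul_comm (w _)] using! hi (Real.pi / 3) (-(Real.pi / 3))))
  have h2 : ∀ t, w (t + -(Real.pi / 3)) * w' (t + Real.pi / 3) =
      w' (t + Real.pi / 3) * w (t + -(Real.pi / 3)) := fun t => mul_comm _ _
  simp only [h2] at h1
  rw [intervalIntegral.integral_add (hi _ _) (hi _ _)] at h1
  have h3 : ∀ c : ℝ, w (2 * Real.pi + c) = w (0 + c) := by
    intro c
    rw [show 2 * Real.pi + c = 0 + c + 2 * Real.pi by ring, h.per]
  rw [h3, h3, sub_self] at h1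
  linarith

theorem int_comp' {η : ℝ} {w w' T : ℝ → ℝ} (h : Rough η w w') (hT : Continuous T) (a b : ℝ) :
    IntervalIntegrable (fun u => w' (T u)) volume a b := by
  have hc : IntervalIntegrable (fun _ : ℝ => η) volume a b := intervalIntegrable_const
  refine hc.mono_fun (h.mea.comp hT.measurable).aestronglyMeasurable ?_
  filter_upwards with x
  simpa [abs_of_nonneg h.eta_nonneg] using h.bdd' (T x)

theorem int_comp {η : ℝ} {w w' g T : ℝ → ℝ} (h : Rough η w w') (hT : Continuous T)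
    (hg : Continuous g) (a b : ℝ) : IntervalIntegrable (fun u => w' (T u) * g u) volume a b :=
  (int_comp' h hT a b).mul_continuousOn hg.continuousOn

theorem int_sq {η : ℝ} {w w' T : ℝ → ℝ} (h : Rough η w w') (hT : Continuous T) (a b : ℝ) :
    IntervalIntegrable (fun u => w' (T u) ^ 2) volume a b := by
  have hc : IntervalIntegrable (fun _ : ℝ => η ^ 2) volume a b := intervalIntegrable_const
  refine hc.mono_fun ((h.mea.comp hT.measurable).pow_const 2).aestronglyMeasurable ?_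
  filter_upwards with x
  have := h.bdd' (T x)
  show ‖w' (T x) ^ 2‖ ≤ ‖η ^ 2‖
  rw [Real.norm_eq_abs, Real.norm_eq_abs, abs_of_nonneg (sq_nonneg _),
    abs_of_nonneg (sq_nonneg _), ← sq_abs (w' (T x))]
  exact pow_le_pow_left₀ (abs_nonneg _) this 2

theorem subst_le {δ c : ℝ} {s s' g : ℝ → ℝ} (h : Sh δ c s s') (hδ : δ ≤ 1 / 10)
    (hg : ∀ t, g (t + 2 * Real.pi) = g t) (hg0 : ∀ t, 0 ≤ g t)
    (hi : IntervalIntegrable (fun u => g (u + s u)) volume 0 (2 * Real.pi)) :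
    ∫ u in (0 : ℝ)..(2 * Real.pi), g (u + s u) ≤ 2 * ∫ t in (0 : ℝ)..(2 * Real.pi), g t := by
  rw [← subst h hδ hg, ← intervalIntegral.integral_const_mul]
  apply intervalIntegral.integral_mono_on (by positivity) hi
  · exact (hi.mul_continuousOn (continuous_const.add h.con).continuousOn).const_mul 2
  · intro u _
    have h1 := (abs_le.1 (h.bd' u)).1
    have h2 := hg0 (u + s u)
    nlinarith

theorem half (h₁ : StSha) (h₂ : StBil) (K : ℝ) : ∃ C : ℝ, 0 < C ∧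
    ∀ (δ c c₁ c₂ α β : ℝ) (w w' s s' s₁ s₁' s₂ s₂' θ θ' κ : ℝ → ℝ), |α| ≤ 2 → |β| ≤ 2 →
    δ ≤ 1 / 10 → Rough 1 w w' → ∫ t in (0 : ℝ)..(2 * Real.pi), w t = 0 →
    Sh δ c s s' → Sh δ c₁ s₁ s₁' → Sh δ c₂ s₂ s₂' → Rough δ θ θ' →
    (∀ u, |θ u| ≤ K * (|w (u + s₁ u)| + |w (u + s₂ u)|)) →
    (∀ u, |θ u - (α * w (u + s₁ u) + β * w (u + s₂ u))| ≤
      δ * (|w (u + s₁ u)| + |w (u + s₂ u)|)) →
    Continuous κ → (∀ u, |κ u - 1| ≤ δ) →
    ∫ u in (0 : ℝ)..(2 * Real.pi), |w (u + s u + θ u) - w (u + s u)| ≤ C * q2 w' ∧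
    (∫ u in (0 : ℝ)..(2 * Real.pi), κ u * w (u + s u))
      + α * (∫ u in (0 : ℝ)..(2 * Real.pi), w' (u + c) * w (u + c₁))
      + β * (∫ u in (0 : ℝ)..(2 * Real.pi), w' (u + c) * w (u + c₂)) - C * (δ * q2 w') ≤
      ∫ u in (0 : ℝ)..(2 * Real.pi), κ u * w (u + s u + θ u) := by
  obtain ⟨Cs, hCs, hS⟩ := h₁
  obtain ⟨Cb, hCb, hB⟩ := h₂
  set C₃ : ℝ := (1 + 320 * K ^ 2) / 2 with hC₃
  have hC₃0 : 0 < C₃ := by positivity
  refine ⟨2 * (Cs * C₃) + 82 + 4 * Cb, by positivity, ?_⟩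
  intro δ c c₁ c₂ α β w w' s s' s₁ s₁' s₂ s₂' θ θ' κ hα hβ hδ hw h0 hs hs₁ hs₂ hθ hθ1 hθ2 hκ hκ1
  have hδ0 : 0 ≤ δ := hθ.eta_nonneg
  have hpi := Real.pi_pos
  have hpi2 : (0 : ℝ) ≤ 2 * Real.pi := by positivity
  set Q : ℝ := q2 w' with hQ
  have hQ0 : 0 ≤ Q := q2_nonneg w'
  have hwc := hw.con
  have hsc := hs.cont
  have hsc₁ := hs₁.cont
  have hsc₂ := hs₂.cont
  have hθc := hθ.con
  have cT : Continuous (fun u => u + s u) := by fun_prop
  have ca : Continuous (fun u => w (u + s u)) := hwc.comp cT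
  have ca₁ : Continuous (fun u => w (u + s₁ u)) := hwc.comp (by fun_prop)
  have ca₂ : Continuous (fun u => w (u + s₂ u)) := hwc.comp (by fun_prop)
  have cb : Continuous (fun u => w (u + s u + θ u)) := hwc.comp (by fun_prop)
  have q₁ : Continuous (fun u => w (u + s₁ u) ^ 2) := ca₁.pow 2
  have q₂ : Continuous (fun u => w (u + s₂ u) ^ 2) := ca₂.pow 2
  have q₁₂ : Continuous (fun u => w (u + s₁ u) ^ 2 + w (u + s₂ u) ^ 2) := q₁.add q₂
  have cba : Continuous (fun u => w (u + s u + θ u) - w (u + s u)) := cb.sub ca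
  have cκ : Continuous (fun u => κ u * w (u + s u)) := hκ.mul ca
  have cκ1 : Continuous (fun u => (κ u - 1) * (w (u + s u + θ u) - w (u + s u))) :=
    (hκ.sub continuous_const).mul cba
  have c2 : Continuous (fun u => κ u * w (u + s u) + (w (u + s u + θ u) - w (u + s u))) :=
    cκ.add cba
  have cI : ∀ {f : ℝ → ℝ}, Continuous f → IntervalIntegrable f volume 0 (2 * Real.pi) :=
    fun hf => hf.intervalIntegrable _ _
  -- squares
  have hq := q2_le hw h0
  have A1 : ∫ u in (0 : ℝ)..(2 * Real.pi), w (u + s₁ u) ^ 2 ≤ 80 * Q := by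
    have := subst_le (g := fun t => w t ^ 2) hs₁ hδ (fun t => by simp only [hw.per])
      (fun t => sq_nonneg _) (cI q₁)
    have h3 : (∫ t in (0 : ℝ)..(2 * Real.pi), w t ^ 2) = q2 w := rfl
    rw [h3] at this
    linarith
  have A2 : ∫ u in (0 : ℝ)..(2 * Real.pi), w (u + s₂ u) ^ 2 ≤ 80 * Q := by
    have := subst_le (g := fun t => w t ^ 2) hs₂ hδ (fun t => by simp only [hw.per])
      (fun t => sq_nonneg _) (cI q₂)
    have h3 : (∫ t in (0 : ℝ)..(2 * Real.pi), w t ^ 2) = q2 w := rfl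
    rw [h3] at this
    linarith
  have A3 : ∫ u in (0 : ℝ)..(2 * Real.pi), w' (u + s u) ^ 2 ≤ 2 * Q :=
    subst_le (g := fun t => w' t ^ 2) hs hδ (fun t => by simp only [hw.per'])
      (fun t => sq_nonneg _) (int_sq hw cT _ _)
  have hqθ : q2 θ ≤ 320 * K ^ 2 * Q := by
    have h1 : q2 θ ≤ ∫ u in (0 : ℝ)..(2 * Real.pi),
        2 * K ^ 2 * (w (u + s₁ u) ^ 2 + w (u + s₂ u) ^ 2) := by
      unfold q2
      apply intervalIntegral.integral_mono_on hpi2 (cI (by fun_prop))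
        (cI (continuous_const.mul q₁₂))
      intro u _
      have h2 := pow_le_pow_left₀ (abs_nonneg _) (hθ1 u) 2
      rw [sq_abs] at h2
      have h3 := sq_abs (w (u + s₁ u))
      have h4 := sq_abs (w (u + s₂ u))
      have h5 : (|w (u + s₁ u)| + |w (u + s₂ u)|) ^ 2 ≤
          2 * (w (u + s₁ u) ^ 2 + w (u + s₂ u) ^ 2) := by
        rw [← h3, ← h4]
        nlinarith [sq_nonneg (|w (u + s₁ u)| - |w (u + s₂ u)|)]
      calc θ u ^ 2 ≤ (K * (|w (u + s₁ u)| + |w (u + s₂ u)|)) ^ 2 := h2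
        _ = K ^ 2 * (|w (u + s₁ u)| + |w (u + s₂ u)|) ^ 2 := by ring
        _ ≤ K ^ 2 * (2 * (w (u + s₁ u) ^ 2 + w (u + s₂ u) ^ 2)) :=
            mul_le_mul_of_nonneg_left h5 (sq_nonneg K)
        _ = 2 * K ^ 2 * (w (u + s₁ u) ^ 2 + w (u + s₂ u) ^ 2) := by ring
    rw [intervalIntegral.integral_const_mul, intervalIntegral.integral_add (cI q₁)
      (cI q₂)] at h1
    have h2 : 2 * K ^ 2 * ((∫ u in (0 : ℝ)..(2 * Real.pi), w (u + s₁ u) ^ 2) +
        ∫ u in (0 : ℝ)..(2 * Real.pi), w (u + s₂ u) ^ 2) ≤ 2 * K ^ 2 * (80 * Q + 80 * Q) :=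
      mul_le_mul_of_nonneg_left (add_le_add A1 A2) (by positivity)
    calc q2 θ ≤ _ := h1
      _ ≤ _ := h2
      _ = 320 * K ^ 2 * Q := by ring
  have hsq : Real.sqrt Q * Real.sqrt (q2 θ) ≤ C₃ * Q := by
    have h1 := Real.sq_sqrt hQ0
    have h2 := Real.sq_sqrt (q2_nonneg θ)
    have h3 := sq_nonneg (Real.sqrt Q - Real.sqrt (q2 θ))
    rw [hC₃]
    nlinarith
  obtain ⟨hS1, hS2⟩ := hS δ w w' s s' θ θ' hδ hw hs.per hs.der hs.con hs.bd' hθ
  rw [← hQ] at hS1 hS2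
  set N : ℝ := ∫ u in (0 : ℝ)..(2 * Real.pi), |w (u + s u + θ u) - w (u + s u)| with hN
  have hN1 : N ≤ Cs * C₃ * Q := by
    calc N ≤ Cs * (Real.sqrt Q * Real.sqrt (q2 θ)) := hS1
      _ ≤ Cs * (C₃ * Q) := mul_le_mul_of_nonneg_left hsq hCs.le
      _ = Cs * C₃ * Q := by ring
  have hD : Cs * (δ * (Real.sqrt Q * Real.sqrt (q2 θ))) ≤ Cs * C₃ * (δ * Q) := by
    calc Cs * (δ * (Real.sqrt Q * Real.sqrt (q2 θ))) ≤ Cs * (δ * (C₃ * Q)) :=
          mul_le_mul_of_nonneg_left (mul_le_mul_of_nonneg_left hsq hδ0) hCs.le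
      _ = Cs * C₃ * (δ * Q) := by ring
  refine ⟨?_, ?_⟩
  · have : 0 ≤ Cs * C₃ * Q := by positivity
    have h82 : 0 ≤ (Cs * C₃ + 82 + 4 * Cb) * Q := by positivity
    nlinarith
  -- the main inequality
  have e1 : ∫ u in (0 : ℝ)..(2 * Real.pi), κ u * w (u + s u + θ u) =
      (∫ u in (0 : ℝ)..(2 * Real.pi), κ u * w (u + s u))
      + (∫ u in (0 : ℝ)..(2 * Real.pi), (w (u + s u + θ u) - w (u + s u)))
      + ∫ u in (0 : ℝ)..(2 * Real.pi), (κ u - 1) * (w (u + s u + θ u) - w (u + s u)) := by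
    rw [← intervalIntegral.integral_add (cI cκ) (cI cba),
      ← intervalIntegral.integral_add (cI c2)
        (cI cκ1)]
    apply intervalIntegral.integral_congr
    intro u _
    simp only
    ring
  have e2 : -(Cs * C₃ * (δ * Q)) ≤
      ∫ u in (0 : ℝ)..(2 * Real.pi), (κ u - 1) * (w (u + s u + θ u) - w (u + s u)) := by
    have h1 : ∫ u in (0 : ℝ)..(2 * Real.pi), (-δ) * |w (u + s u + θ u) - w (u + s u)| ≤
        ∫ u in (0 : ℝ)..(2 * Real.pi), (κ u - 1) * (w (u + s u + θ u) - w (u + s u)) := by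
      apply intervalIntegral.integral_mono_on hpi2 (cI (continuous_const.mul cba.abs))
        (cI cκ1)
      intro u _
      have h2 : |(κ u - 1) * (w (u + s u + θ u) - w (u + s u))| ≤
          δ * |w (u + s u + θ u) - w (u + s u)| := by
        rw [abs_mul]
        exact mul_le_mul_of_nonneg_right (hκ1 u) (abs_nonneg _)
      have h3 := (abs_le.1 h2).1
      show (-δ) * |w (u + s u + θ u) - w (u + s u)| ≤
        (κ u - 1) * (w (u + s u + θ u) - w (u + s u))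
      linarith
    rw [intervalIntegral.integral_const_mul, ← hN] at h1
    have h2 : δ * N ≤ δ * (Cs * C₃ * Q) := mul_le_mul_of_nonneg_left hN1 hδ0
    have h3 : δ * (Cs * C₃ * Q) = Cs * C₃ * (δ * Q) := by ring
    linarith
  have e3 := (abs_le.1 (hS2.trans hD)).1
  -- the bilinear part
  have i1 := int_comp hw cT ca₁ 0 (2 * Real.pi)
  have i2 := int_comp hw cT ca₂ 0 (2 * Real.pi)
  have ce : Continuous (fun u => θ u - (α * w (u + s₁ u) + β * w (u + s₂ u))) :=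
    hθc.sub ((continuous_const.mul ca₁).add (continuous_const.mul ca₂))
  have i3 := int_comp hw cT ce 0 (2 * Real.pi)
  have i4 : IntervalIntegrable (fun u => α * (w' (u + s u) * w (u + s₁ u))
      + β * (w' (u + s u) * w (u + s₂ u))) volume 0 (2 * Real.pi) :=
    (i1.const_mul _).add (i2.const_mul _)
  have e4 : ∫ u in (0 : ℝ)..(2 * Real.pi), w' (u + s u) * θ u =
      α * (∫ u in (0 : ℝ)..(2 * Real.pi), w' (u + s u) * w (u + s₁ u))
      + β * (∫ u in (0 : ℝ)..(2 * Real.pi), w' (u + s u) * w (u + s₂ u))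
      + ∫ u in (0 : ℝ)..(2 * Real.pi),
        w' (u + s u) * (θ u - (α * w (u + s₁ u) + β * w (u + s₂ u))) := by
    rw [← intervalIntegral.integral_const_mul, ← intervalIntegral.integral_const_mul,
      ← intervalIntegral.integral_add (i1.const_mul _) (i2.const_mul _),
      ← intervalIntegral.integral_add i4 i3]
    apply intervalIntegral.integral_congr
    intro u _
    simp only
    ring
  have i5 : IntervalIntegrable (fun u => (w (u + s₁ u) ^ 2 + w (u + s₂ u) ^ 2) * (1 / 2))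
      volume 0 (2 * Real.pi) := (cI q₁₂).mul_const _
  have i6 : IntervalIntegrable (fun u => w' (u + s u) ^ 2 +
      (w (u + s₁ u) ^ 2 + w (u + s₂ u) ^ 2) * (1 / 2)) volume 0 (2 * Real.pi) :=
    (int_sq hw cT _ _).add i5
  have e5 : -(82 * (δ * Q)) ≤ ∫ u in (0 : ℝ)..(2 * Real.pi),
        w' (u + s u) * (θ u - (α * w (u + s₁ u) + β * w (u + s₂ u))) := by
    have h1 : ∫ u in (0 : ℝ)..(2 * Real.pi), (-δ) * (w' (u + s u) ^ 2 +
        (w (u + s₁ u) ^ 2 + w (u + s₂ u) ^ 2) * (1 / 2)) ≤ ∫ u in (0 : ℝ)..(2 * Real.pi),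
        w' (u + s u) * (θ u - (α * w (u + s₁ u) + β * w (u + s₂ u))) := by
      apply intervalIntegral.integral_mono_on hpi2
        (i6.const_mul _) i3
      intro u _
      have h2 : |w' (u + s u) * (θ u - (α * w (u + s₁ u) + β * w (u + s₂ u)))| ≤
          |w' (u + s u)| * (δ * (|w (u + s₁ u)| + |w (u + s₂ u)|)) := by
        rw [abs_mul]
        exact mul_le_mul_of_nonneg_left (hθ2 u) (abs_nonneg _)
      have h3 : |w' (u + s u)| * (|w (u + s₁ u)| + |w (u + s₂ u)|) ≤ w' (u + s u) ^ 2 +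
          (w (u + s₁ u) ^ 2 + w (u + s₂ u) ^ 2) * (1 / 2) := by
        rw [← sq_abs (w' (u + s u)), ← sq_abs (w (u + s₁ u)), ← sq_abs (w (u + s₂ u))]
        nlinarith [sq_nonneg (|w' (u + s u)| - |w (u + s₁ u)|),
          sq_nonneg (|w' (u + s u)| - |w (u + s₂ u)|)]
      have h4 := mul_le_mul_of_nonneg_left h3 hδ0
      have h5 := (abs_le.1 h2).1
      nlinarith
    rw [intervalIntegral.integral_const_mul,
      intervalIntegral.integral_add (int_sq hw cT _ _) i5, intervalIntegral.integral_mul_const,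
      intervalIntegral.integral_add (cI q₁) (cI q₂)] at h1
    have h2 : (∫ u in (0 : ℝ)..(2 * Real.pi), w' (u + s u) ^ 2) +
        ((∫ u in (0 : ℝ)..(2 * Real.pi), w (u + s₁ u) ^ 2) +
          ∫ u in (0 : ℝ)..(2 * Real.pi), w (u + s₂ u) ^ 2) * (1 / 2) ≤ 82 * Q := by linarith
    have h3 := mul_le_mul_of_nonneg_left h2 hδ0
    nlinarith
  have b1 := (hB δ c c₁ w w' s s' s₁ s₁' hδ hw h0 hs.per hs.der hs.con hs.bd' hs.bd
    hs₁.per hs₁.der hs₁.con hs₁.bd' hs₁.bd).1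
  have b2 := (hB δ c c₂ w w' s s' s₂ s₂' hδ hw h0 hs.per hs.der hs.con hs.bd' hs.bd
    hs₂.per hs₂.der hs₂.con hs₂.bd' hs₂.bd).1
  rw [← hQ] at b1 b2
  have hδQ : 0 ≤ δ * Q := mul_nonneg hδ0 hQ0
  have key : ∀ γ x y : ℝ, |γ| ≤ 2 → |x - y| ≤ Cb * (δ * Q) → γ * y - 2 * (Cb * (δ * Q)) ≤ γ * x := by
    intro γ x y h1 h2
    have h3 : |γ * (x - y)| ≤ 2 * (Cb * (δ * Q)) := by
      rw [abs_mul]
      exact mul_le_mul h1 h2 (abs_nonneg _) (by norm_num)
    have h4 := (abs_le.1 h3).1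
    linarith
  have k1 := key α _ _ hα b1
  have k2 := key β _ _ hβ b2
  rw [e4] at e3
  rw [e1]
  have : (2 * (Cs * C₃) + 82 + 4 * Cb) * (δ * Q) =
    Cs * C₃ * (δ * Q) + Cs * C₃ * (δ * Q) + 82 * (δ * Q) + 2 * (Cb * (δ * Q)) +
      2 * (Cb * (δ * Q)) := by ring
  rw [this]
  linarith

theorem norm_gen (x : ℂ × ℂ) (t : ℝ) :
    ‖(-3 * Complex.I * (rot t x).1, -5 * Complex.I * (rot t x).2)‖ ≤ 5 * ‖x‖ := by
  have h1 := fst_le x
  have h2 := snd_le x
  have h3 := norm_nonneg x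
  rw [Prod.norm_def]
  apply max_le
  · show ‖-3 * Complex.I * (rot t x).1‖ ≤ 5 * ‖x‖
    rw [norm_mul, norm_mul, norm_rot_fst]
    simp only [norm_neg, Complex.norm_I, mul_one, Complex.norm_ofNat]
    linarith
  · show ‖-5 * Complex.I * (rot t x).2‖ ≤ 5 * ‖x‖
    rw [norm_mul, norm_mul, norm_rot_snd]
    simp only [norm_neg, Complex.norm_I, mul_one, Complex.norm_ofNat]
    linarith

theorem norm_rot_sub (x : ℂ × ℂ) (u v : ℝ) : ‖rot u x - rot v x‖ ≤ 5 * ‖x‖ * |u - v| := by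
  have h1 := Convex.norm_image_sub_le_of_norm_hasDerivWithin_le (f := fun t => rot t x)
    (f' := fun t => (-3 * Complex.I * (rot t x).1, -5 * Complex.I * (rot t x).2)) (C := 5 * ‖x‖)
    (s := univ) (x := v) (y := u)
    (fun t _ => (hasDerivAt_rot x t).hasDerivWithinAt) (fun t _ => norm_gen x t)
    convex_univ (mem_univ _) (mem_univ _)
  simpa using h1

theorem mem_b (x : ℂ × ℂ) (u : ℝ) (z : ℝ × ℝ) {ρ : ℝ} (h1 : ‖x‖ < ρ) (h2 : ‖z‖ < ρ) :
    ((rot u x, z) : (ℂ × ℂ) × (ℝ × ℝ)) ∈ ball (0 : (ℂ × ℂ) × (ℝ × ℝ)) ρ := by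
  rw [mem_ball_zero_iff, Prod.norm_def]
  apply max_lt
  · show ‖rot u x‖ < ρ
    rw [norm_rot]; exact h1
  · exact h2

theorem shiftData (f : (ℂ × ℂ) × (ℝ × ℝ) → ℝ) (r : ℝ) (hr : 0 < r)
    (hf : ContDiffOn ℝ 6 f (ball 0 r)) :
    ∃ L ρ : ℝ, 0 < L ∧ 0 < ρ ∧ ρ < r ∧ ∀ x : ℂ × ℂ, ‖x‖ ≤ ρ →
      ∃ s' : ℝ → ℝ, Sh (L * ‖x‖) (f 0) (fun u => f (rot u x, 0)) s' := by
  have hc : ContDiffAt ℝ 1 f 0 :=
    (hf.contDiffAt (ball_mem_nhds _ hr)).of_le (by norm_num)
  obtain ⟨K, t, ht, hK⟩ := hc.exists_lipschitzOnWith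
  obtain ⟨ε, hε, hb⟩ := Metric.mem_nhds_iff.1 ht
  have hm : 0 < min ε r := lt_min hε hr
  have hK0 : (0 : ℝ) ≤ K := K.coe_nonneg
  refine ⟨5 * K + 1, min ε r / 2, by positivity, by positivity, ?_, ?_⟩
  · have := min_le_right ε r
    linarith
  intro x hx
  have hx2 : ‖x‖ < min ε r := by linarith
  have mem : ∀ u, ((rot u x, (0 : ℝ × ℝ)) : (ℂ × ℂ) × (ℝ × ℝ)) ∈
      ball (0 : (ℂ × ℂ) × (ℝ × ℝ)) (min ε r) := fun u => mem_b x u 0 hx2 (by simpa using hm)
  have mem1 : ∀ u, ((rot u x, (0 : ℝ × ℝ)) : (ℂ × ℂ) × (ℝ × ℝ)) ∈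
      ball (0 : (ℂ × ℂ) × (ℝ × ℝ)) r := fun u => ball_subset_ball (min_le_right _ _) (mem u)
  have mem2 : ∀ u, ((rot u x, (0 : ℝ × ℝ)) : (ℂ × ℂ) × (ℝ × ℝ)) ∈
      ball (0 : (ℂ × ℂ) × (ℝ × ℝ)) ε := fun u => ball_subset_ball (min_le_left _ _) (mem u)
  have hn : ∀ u, ‖fderiv ℝ f (rot u x, 0)‖ ≤ K := by
    intro u
    exact norm_fderiv_le_of_lipschitzOn ℝ
      (mem_of_superset (isOpen_ball.mem_nhds (mem2 u)) hb) hK
  have hcf : ContinuousOn (fderiv ℝ f) (ball 0 r) :=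
    hf.continuousOn_fderiv_of_isOpen isOpen_ball (by norm_num)
  refine ⟨fun u => fderiv ℝ f (rot u x, 0)
    ((-3 * Complex.I * (rot u x).1, -5 * Complex.I * (rot u x).2), 0), ?_, ?_, ?_, ?_, ?_⟩
  · intro u
    simp only [rot_per]
  · intro u
    have h1 : HasFDerivAt f (fderiv ℝ f (rot u x, 0)) (rot u x, 0) :=
      ((hf.differentiableOn (by norm_num)).differentiableAt
        (isOpen_ball.mem_nhds (mem1 u))).hasFDerivAt
    have h2 : HasDerivAt (fun s : ℝ => ((rot s x, (0 : ℝ × ℝ)) : (ℂ × ℂ) × (ℝ × ℝ)))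
        ((-3 * Complex.I * (rot u x).1, -5 * Complex.I * (rot u x).2), 0) u :=
      (hasDerivAt_rot x u).prodMk (hasDerivAt_const u (0 : ℝ × ℝ))
    exact h1.comp_hasDerivAt u h2
  · have h1 : Continuous (fun u => fderiv ℝ f (rot u x, 0)) :=
      hcf.comp_continuous ((continuous_rot x).prodMk continuous_const) mem1
    have := continuous_rot x
    exact h1.clm_apply (((continuous_const.mul this.fst).prodMk
      (continuous_const.mul this.snd)).prodMk continuous_const)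
  · intro u
    have h1 := (fderiv ℝ f (rot u x, 0)).le_opNorm
      ((-3 * Complex.I * (rot u x).1, -5 * Complex.I * (rot u x).2), 0)
    have h2 : ‖(((-3 * Complex.I * (rot u x).1, -5 * Complex.I * (rot u x).2), 0) :
        (ℂ × ℂ) × (ℝ × ℝ))‖ ≤ 5 * ‖x‖ := by
      rw [Prod.norm_def]
      apply max_le (norm_gen x u)
      simp
    rw [Real.norm_eq_abs] at h1
    have h3 : ‖fderiv ℝ f (rot u x, 0)‖ * ‖(((-3 * Complex.I * (rot u x).1,
        -5 * Complex.I * (rot u x).2), 0) : (ℂ × ℂ) × (ℝ × ℝ))‖ ≤ K * (5 * ‖x‖) :=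
      mul_le_mul (hn u) h2 (norm_nonneg _) hK0
    have h4 := norm_nonneg x
    linarith
  · intro u
    have h1 := hK.norm_sub_le (hb (mem2 u)) (hb (mem_ball_self hε))
    rw [Real.norm_eq_abs, sub_zero, Prod.norm_def] at h1
    have h2 : max ‖((rot u x, (0 : ℝ × ℝ)) : (ℂ × ℂ) × (ℝ × ℝ)).1‖
        ‖((rot u x, (0 : ℝ × ℝ)) : (ℂ × ℂ) × (ℝ × ℝ)).2‖ = ‖x‖ := by
      simp [norm_rot]
    rw [h2] at h1
    have h4 := norm_nonneg x
    have h5 := mul_nonneg hK0 h4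
    linarith

theorem thetaData {f : (ℂ × ℂ) × (ℝ × ℝ) → ℝ} {r r' C' : ℝ}
    (hf : ContDiffOn ℝ 6 f (ball 0 r)) (hr : r' ≤ r) (hC : 0 < C')
    (lp : ∀ p ∈ ball (0 : (ℂ × ℂ) × (ℝ × ℝ)) r', ∀ q ∈ ball (0 : (ℂ × ℂ) × (ℝ × ℝ)) r',
      |(f p - f (p.1, 0)) - (f q - f (q.1, 0))| ≤
        C' * (‖p.2 - q.2‖ + ‖p.2‖ * ‖p.1 - q.1‖))
    {η : ℝ} {x : ℂ × ℂ} (hη : η < r') (hx : ‖x‖ < r') (hη0 : 0 ≤ η) (hx1 : ‖x‖ ≤ 1)
    (a₁ a₂ : ℝ → ℝ)
    (p₁ : ∀ u, a₁ (u + 2 * Real.pi) = a₁ u) (p₂ : ∀ u, a₂ (u + 2 * Real.pi) = a₂ u)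
    (d₁ : ∀ u, DifferentiableWithinAt ℝ a₁ (Ioi u) u)
    (d₂ : ∀ u, DifferentiableWithinAt ℝ a₂ (Ioi u) u)
    (l₁ : ∀ u v, |a₁ u - a₁ v| ≤ 2 * η * |u - v|) (l₂ : ∀ u v, |a₂ u - a₂ v| ≤ 2 * η * |u - v|)
    (b₁ : ∀ u, |a₁ u| ≤ η) (b₂ : ∀ u, |a₂ u| ≤ η) :
    (∃ θ' : ℝ → ℝ, Rough (7 * C' * η) (fun u => f (rot u x, (a₁ u, a₂ u)) - f (rot u x, 0)) θ') ∧
    (∀ u, |f (rot u x, (a₁ u, a₂ u)) - f (rot u x, 0)| ≤ C' * (|a₁ u| + |a₂ u|)) := by
  have hr' : 0 < r' := lt_of_le_of_lt hη0 hη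
  have na : ∀ u, ‖((a₁ u, a₂ u) : ℝ × ℝ)‖ ≤ η := by
    intro u
    rw [Prod.norm_def]
    exact max_le (b₁ u) (b₂ u)
  have na2 : ∀ u, ‖((a₁ u, a₂ u) : ℝ × ℝ)‖ ≤ |a₁ u| + |a₂ u| := by
    intro u
    rw [Prod.norm_def]
    apply max_le
    · show |a₁ u| ≤ _
      linarith [abs_nonneg (a₂ u)]
    · show |a₂ u| ≤ _
      linarith [abs_nonneg (a₁ u)]
  have mem : ∀ u, ((rot u x, (a₁ u, a₂ u)) : (ℂ × ℂ) × (ℝ × ℝ)) ∈
      ball (0 : (ℂ × ℂ) × (ℝ × ℝ)) r' := fun u => mem_b x u _ hx (lt_of_le_of_lt (na u) hη)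
  have mem0 : ∀ u, ((rot u x, (0 : ℝ × ℝ)) : (ℂ × ℂ) × (ℝ × ℝ)) ∈
      ball (0 : (ℂ × ℂ) × (ℝ × ℝ)) r' := fun u => mem_b x u _ hx (by simpa using hr')
  have hbd : ∀ u, |f (rot u x, (a₁ u, a₂ u)) - f (rot u x, 0)| ≤
      C' * ‖((a₁ u, a₂ u) : ℝ × ℝ)‖ := by
    intro u
    have h := lp _ (mem u) _ (mem0 u)
    simpa using h
  have hdf : ∀ p ∈ ball (0 : (ℂ × ℂ) × (ℝ × ℝ)) r', DifferentiableAt ℝ f p := by
    intro p hp
    exact (hf.differentiableOn (by norm_num)).differentiableAt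
        (isOpen_ball.mem_nhds (ball_subset_ball hr hp))
  have hdr : ∀ u, DifferentiableWithinAt ℝ (fun t => rot t x) (Ioi u) u :=
    fun u => (hasDerivAt_rot x u).differentiableAt.differentiableWithinAt
  refine ⟨⟨_, rough_of_lip ?_ ?_ ?_ ?_⟩, ?_⟩
  · intro u
    simp only [rot_per, p₁, p₂]
  · intro u
    apply DifferentiableWithinAt.sub
    · exact DifferentiableAt.comp_differentiableWithinAt
        (f := fun t => ((rot t x, (a₁ t, a₂ t)) : (ℂ × ℂ) × (ℝ × ℝ))) (g := f) u (hdf _ (mem u))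
        ((hdr u).prodMk ((d₁ u).prodMk (d₂ u)))
    · exact DifferentiableAt.comp_differentiableWithinAt
        (f := fun t => ((rot t x, (0 : ℝ × ℝ)) : (ℂ × ℂ) × (ℝ × ℝ))) (g := f) u (hdf _ (mem0 u))
        ((hdr u).prodMk (differentiableWithinAt_const _))
  · intro u v
    have h := lp _ (mem u) _ (mem v)
    have h1 : ‖((a₁ u, a₂ u) : ℝ × ℝ) - (a₁ v, a₂ v)‖ ≤ 2 * η * |u - v| := by
      rw [Prod.norm_def]
      exact max_le (l₁ u v) (l₂ u v)
    have h2 := norm_rot_sub x u v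
    have h3 : ‖((a₁ u, a₂ u) : ℝ × ℝ)‖ * ‖rot u x - rot v x‖ ≤ η * (5 * |u - v|) := by
      apply mul_le_mul (na u) _ (norm_nonneg _) hη0
      have := abs_nonneg (u - v)
      nlinarith
    have h4 : C' * (‖((a₁ u, a₂ u) : ℝ × ℝ) - (a₁ v, a₂ v)‖ +
        ‖((a₁ u, a₂ u) : ℝ × ℝ)‖ * ‖rot u x - rot v x‖) ≤
        C' * (2 * η * |u - v| + η * (5 * |u - v|)) :=
      mul_le_mul_of_nonneg_left (add_le_add h1 h3) hC.le
    calc _ ≤ _ := h
      _ ≤ _ := h4
      _ = 7 * C' * η * |u - v| := by ring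
  · intro u
    have h1 := hbd u
    have h2 : C' * ‖((a₁ u, a₂ u) : ℝ × ℝ)‖ ≤ C' * η := mul_le_mul_of_nonneg_left (na u) hC.le
    have h3 : 0 ≤ C' * η := mul_nonneg hC.le hη0
    show |f (rot u x, (a₁ u, a₂ u)) - f (rot u x, 0)| ≤ 7 * C' * η
    linarith
  · intro u
    exact (hbd u).trans (mul_le_mul_of_nonneg_left (na2 u) hC.le)

theorem lin_bound {a b c d A B n : ℝ} (ha : |a| ≤ n) (hb : |b| ≤ n) (hc : |c| ≤ n) (hd : |d| ≤ n)
    (hA : 0 ≤ A) (hA2 : A ≤ 2) (hB : 0 ≤ B) (hB2 : B ≤ 1) :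
    |2 * a + A * b - 17 / 2 * c - B * d| ≤ 14 * n := by
  have hn : 0 ≤ n := (abs_nonneg a).trans ha
  have h1 : |2 * a + A * b - 17 / 2 * c - B * d| ≤ 2 * |a| + A * |b| + 17 / 2 * |c| + B * |d| := by
    have e1 := abs_sub (2 * a + A * b - 17 / 2 * c) (B * d)
    have e2 := abs_sub (2 * a + A * b) (17 / 2 * c)
    have e3 := abs_add_le (2 * a) (A * b)
    rw [abs_mul B d, abs_of_nonneg hB] at e1
    rw [abs_mul (17 / 2) c, abs_of_nonneg (by norm_num : (0 : ℝ) ≤ 17 / 2)] at e2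
    rw [abs_mul 2 a, abs_mul A b, abs_of_nonneg hA, abs_two] at e3
    linarith
  have h2 : A * |b| ≤ 2 * n := mul_le_mul hA2 hb (abs_nonneg _) (by norm_num)
  have h3 : B * |d| ≤ 1 * n := mul_le_mul hB2 hd (abs_nonneg _) (by norm_num)
  linarith

theorem int_lin (f₀ f₁ f₂ f₃ f₄ f₅ f₆ f₇ : ℝ → ℝ) (c₀ : Continuous f₀) (c₁ : Continuous f₁)
    (c₂ : Continuous f₂) (c₃ : Continuous f₃) (c₄ : Continuous f₄) (c₅ : Continuous f₅)
    (c₆ : Continuous f₆) (c₇ : Continuous f₇) (A B : ℝ) :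
    ∫ u in (0 : ℝ)..(2 * Real.pi), (f₀ u + f₁ u + f₂ u - 5 / 6 * (f₃ u + f₄ u) - 4 / 3 * f₅ u
      - A * (B * (f₃ u + f₄ u + f₆ u + f₇ u))) =
    (∫ u in (0 : ℝ)..(2 * Real.pi), f₀ u) + (∫ u in (0 : ℝ)..(2 * Real.pi), f₁ u)
      + (∫ u in (0 : ℝ)..(2 * Real.pi), f₂ u)
      - 5 / 6 * ((∫ u in (0 : ℝ)..(2 * Real.pi), f₃ u) + ∫ u in (0 : ℝ)..(2 * Real.pi), f₄ u)
      - 4 / 3 * (∫ u in (0 : ℝ)..(2 * Real.pi), f₅ u)
      - A * (B * ((∫ u in (0 : ℝ)..(2 * Real.pi), f₃ u) + (∫ u in (0 : ℝ)..(2 * Real.pi), f₄ u)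
        + (∫ u in (0 : ℝ)..(2 * Real.pi), f₆ u) + ∫ u in (0 : ℝ)..(2 * Real.pi), f₇ u)) := by
  have i : ∀ f : ℝ → ℝ, Continuous f → IntervalIntegrable f volume 0 (2 * Real.pi) :=
    fun f hf => hf.intervalIntegrable _ _
  have k1 : Continuous (fun u => f₀ u + f₁ u) := c₀.add c₁
  have k2 : Continuous (fun u => f₀ u + f₁ u + f₂ u) := k1.add c₂
  have k3 : Continuous (fun u => f₃ u + f₄ u) := c₃.add c₄
  have k3' : Continuous (fun u => 5 / 6 * (f₃ u + f₄ u)) := continuous_const.mul k3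
  have k4 : Continuous (fun u => f₀ u + f₁ u + f₂ u - 5 / 6 * (f₃ u + f₄ u)) := k2.sub k3'
  have k5 : Continuous (fun u => 4 / 3 * f₅ u) := continuous_const.mul c₅
  have k6 : Continuous (fun u => f₀ u + f₁ u + f₂ u - 5 / 6 * (f₃ u + f₄ u) - 4 / 3 * f₅ u) :=
    k4.sub k5
  have k7 : Continuous (fun u => f₃ u + f₄ u + f₆ u) := k3.add c₆
  have k8 : Continuous (fun u => f₃ u + f₄ u + f₆ u + f₇ u) := k7.add c₇
  have k9 : Continuous (fun u => A * (B * (f₃ u + f₄ u + f₆ u + f₇ u))) :=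
    continuous_const.mul (continuous_const.mul k8)
  rw [intervalIntegral.integral_sub (i _ k6) (i _ k9),
    intervalIntegral.integral_sub (i _ k4) (i _ k5),
    intervalIntegral.integral_sub (i _ k2) (i _ k3'),
    intervalIntegral.integral_add (i _ k1) (i _ c₂),
    intervalIntegral.integral_add (i _ c₀) (i _ c₁),
    intervalIntegral.integral_const_mul, intervalIntegral.integral_const_mul,
    intervalIntegral.integral_const_mul, intervalIntegral.integral_const_mul,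
    intervalIntegral.integral_add (i _ k7) (i _ c₇),
    intervalIntegral.integral_add (i _ k3) (i _ c₆),
    intervalIntegral.integral_add (i _ c₃) (i _ c₄)]

theorem fin_arith {L Cb Ch C₁ e δ Q q p z ii I0 I1 I2 I3 I4 I5 I6 I7 J1 J2 : ℝ}
    (hL : 0 < L) (hCb : 0 < Cb) (hCh : 0 < Ch) (hC₁ : 0 ≤ C₁) (he : 0 ≤ e) (hQ : 0 ≤ Q)
    (hδ : δ ≤ 1 / 10) (hd : δ = L * e) (hq : q ≤ 40 * Q)
    (q11 : |I3 - q| ≤ Cb * (δ * Q)) (q22 : |I4 - q| ≤ Cb * (δ * Q))
    (q12 : |I5 - p| ≤ Cb * (δ * Q)) (P1 : I6 ≤ Ch * Q) (M1 : I7 ≤ Ch * Q)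
    (P2 : J1 + -(1 / z) * 0 + -(2 * (1 / z)) * ii - Ch * (δ * Q) ≤ I1)
    (M2 : J2 + 2 * (1 / z) * -ii + 1 / z * 0 - Ch * (δ * Q) ≤ I2) :
    I0 + J1 + J2 - 4 / z * ii - 1 / 6 * (10 * q + 8 * p) -
      (L * (2 * Ch + 3 * Cb) + 80 + 2 * Cb + 2 * Ch) * ((1 + C₁) * (e * Q)) ≤
    I0 + I1 + I2 - 5 / 6 * (I3 + I4) - 4 / 3 * I5 - C₁ * (e * (I3 + I4 + I6 + I7)) := by
  have hδQ : δ * Q = L * (e * Q) := by rw [hd]; ring
  have hδQ1 : δ * Q ≤ 1 / 10 * Q := mul_le_mul_of_nonneg_right hδ hQ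
  have hδQ2 : Cb * (δ * Q) ≤ Cb * Q := mul_le_mul_of_nonneg_left (by linarith) hCb.le
  have hI3 : I3 ≤ 40 * Q + Cb * Q := by linarith [(abs_le.1 q11).2]
  have hI4 : I4 ≤ 40 * Q + Cb * Q := by linarith [(abs_le.1 q22).2]
  rw [hδQ] at q11 q22 q12 P2 M2
  have hE : C₁ * (e * (I3 + I4 + I6 + I7)) ≤ (80 + 2 * Cb + 2 * Ch) * (C₁ * (e * Q)) := by
    have h5 : I3 + I4 + I6 + I7 ≤ (80 + 2 * Cb + 2 * Ch) * Q := by linarith
    calc C₁ * (e * (I3 + I4 + I6 + I7)) ≤ C₁ * (e * ((80 + 2 * Cb + 2 * Ch) * Q)) :=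
          mul_le_mul_of_nonneg_left (mul_le_mul_of_nonneg_left h5 he) hC₁
      _ = _ := by ring
  have hS0 : 0 ≤ e * Q := mul_nonneg he hQ
  have hS1 : 0 ≤ C₁ * (e * Q) := mul_nonneg hC₁ hS0
  have g1 := (abs_le.1 q11).2
  have g2 := (abs_le.1 q22).2
  have g3 := (abs_le.1 q12).2
  have g4 : (L * (2 * Ch + 3 * Cb) + 80 + 2 * Cb + 2 * Ch) * ((1 + C₁) * (e * Q)) =
      Ch * (L * (e * Q)) + Ch * (L * (e * Q)) + 3 * (Cb * (L * (e * Q)))
      + (80 + 2 * Cb + 2 * Ch) * (C₁ * (e * Q))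
      + (L * (2 * Ch + 3 * Cb)) * (C₁ * (e * Q)) + (80 + 2 * Cb + 2 * Ch) * (e * Q) := by ring
  have g5 : 0 ≤ (L * (2 * Ch + 3 * Cb)) * (C₁ * (e * Q)) := by positivity
  have g6 : 0 ≤ (80 + 2 * Cb + 2 * Ch) * (e * Q) := by positivity
  have g7 : 4 / z * ii = 2 * (1 / z) * ii + 2 * (1 / z) * ii := by ring
  rw [g4, g7]
  linarith

theorem hCI2 (h₁ : StSha) (h₂ : StBil) : StCi2 := by
  intro r sp sm hch r' C' κp κm hrr hT
  obtain ⟨Cb, hCb, hB⟩ := id h₂
  obtain ⟨Lp, ρp, hLp, hρp, hρpr, hSp⟩ := shiftData sp r hch.pos hch.cp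
  obtain ⟨Lm, ρm, hLm, hρm, hρmr, hSm⟩ := shiftData sm r hch.pos hch.cm
  obtain ⟨Ch, hCh, hH⟩ := half h₁ h₂ C'
  have hC' := hT.posC
  have hr' := hT.pos
  set L : ℝ := Lp + Lm + 7 * C' + 14 with hL
  have hL0 : 0 < L := by positivity
  set r₁ : ℝ := min (min (min ρp ρm) (r' / 2)) (min 1 (1 / (20 * L))) with hr₁
  have hr₁0 : 0 < r₁ := by positivity
  refine ⟨L * (2 * Ch + 3 * Cb) + 80 + 2 * Cb + 2 * Ch, r₁, by positivity, hr₁0, ?_⟩
  intro C₁ η x w w' hC₁ hx hη hw1 h0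
  have hη0 : 0 ≤ η := hw1.eta_nonneg
  have e1 : r₁ ≤ ρp := (min_le_left _ _).trans ((min_le_left _ _).trans (min_le_left _ _))
  have e2 : r₁ ≤ ρm := (min_le_left _ _).trans ((min_le_left _ _).trans (min_le_right _ _))
  have e3 : r₁ ≤ r' / 2 := (min_le_left _ _).trans (min_le_right _ _)
  have e4 : r₁ ≤ 1 := (min_le_right _ _).trans (min_le_left _ _)
  have e5 : r₁ ≤ 1 / (20 * L) := (min_le_right _ _).trans (min_le_right _ _)
  have hx0 : 0 ≤ ‖x‖ := norm_nonneg x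
  have hx1 : ‖x‖ ≤ 1 := hx.trans e4
  have hη1 : η ≤ 1 := hη.trans e4
  set δ : ℝ := L * (η + ‖x‖) with hδdef
  have hδ : δ ≤ 1 / 10 := by
    have h1 : η + ‖x‖ ≤ 2 * (1 / (20 * L)) := by linarith
    calc δ ≤ L * (2 * (1 / (20 * L))) := mul_le_mul_of_nonneg_left h1 hL0.le
      _ = 1 / 10 := by field_simp; norm_num
  have hs0 : 0 ≤ η + ‖x‖ := by positivity
  have hδ0 : 0 ≤ δ := by positivity
  have hw : Rough 1 w w' := hw1.mono hη1
  have hxr : ‖x‖ < r' := by linarith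
  have hηr : η < r' := by linarith
  obtain ⟨s1', hs1⟩ := hSp x (hx.trans e1)
  obtain ⟨s2', hs2⟩ := hSm x (hx.trans e2)
  rw [hch.vp] at hs1
  rw [hch.vm] at hs2
  replace hs1 : Sh δ (Real.pi / 3) (fun u => sp (rot u x, 0)) s1' := by
    apply hs1.mono
    rw [hδdef, hL]
    nlinarith [mul_nonneg hLp.le hη0, mul_nonneg hLm.le hs0, mul_nonneg hC'.le hs0]
  replace hs2 : Sh δ (-(Real.pi / 3)) (fun u => sm (rot u x, 0)) s2' := by
    apply hs2.mono
    rw [hδdef, hL]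
    nlinarith [mul_nonneg hLm.le hη0, mul_nonneg hLp.le hs0, mul_nonneg hC'.le hs0]
  obtain ⟨p1, d1, l1⟩ := aData hs1 hδ hw1
  obtain ⟨p2, d2, l2⟩ := aData hs2 hδ hw1
  have hTp := thetaData hch.cp hrr hC' hT.lp hηr hxr hη0 hx1
    (fun u => w (u + sp (rot u x, 0))) (fun u => w (u + sm (rot u x, 0))) p1 p2 d1 d2 l1 l2
    (fun u => hw1.bdd _) (fun u => hw1.bdd _)
  have hTm := thetaData hch.cm hrr hC' hT.lm hηr hxr hη0 hx1
    (fun u => w (u + sp (rot u x, 0))) (fun u => w (u + sm (rot u x, 0))) p1 p2 d1 d2 l1 l2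
    (fun u => hw1.bdd _) (fun u => hw1.bdd _)
  obtain ⟨⟨θp', hθp⟩, hθp2⟩ := hTp
  obtain ⟨⟨θm', hθm⟩, hθm2⟩ := hTm
  have h7 : 7 * C' * η ≤ δ := by
    rw [hδdef, hL]
    nlinarith [mul_nonneg hLm.le hs0, mul_nonneg hLp.le hs0, mul_nonneg hC'.le hx0]
  replace hθp := hθp.mono h7
  replace hθm := hθm.mono h7
  have hmem : ∀ u, rot u x ∈ ball (0 : ℂ × ℂ) r' := by
    intro u
    rw [mem_ball_zero_iff, norm_rot]; exact hxr
  have hna : ∀ u, ‖((w (u + sp (rot u x, 0)), w (u + sm (rot u x, 0))) : ℝ × ℝ)‖ ≤ η := by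
    intro u
    rw [Prod.norm_def]
    exact max_le (hw1.bdd _) (hw1.bdd _)
  have hna2 : ∀ u, ‖((w (u + sp (rot u x, 0)), w (u + sm (rot u x, 0))) : ℝ × ℝ)‖ ≤
      |w (u + sp (rot u x, 0))| + |w (u + sm (rot u x, 0))| := by
    intro u
    rw [Prod.norm_def]
    apply max_le
    · show |w (u + sp (rot u x, 0))| ≤ _
      linarith [abs_nonneg (w (u + sm (rot u x, 0)))]
    · show |w (u + sm (rot u x, 0))| ≤ _
      linarith [abs_nonneg (w (u + sp (rot u x, 0)))]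
  have hmem2 : ∀ u, ((rot u x, (w (u + sp (rot u x, 0)), w (u + sm (rot u x, 0)))) :
      (ℂ × ℂ) × (ℝ × ℝ)) ∈ ball (0 : (ℂ × ℂ) × (ℝ × ℝ)) r' :=
    fun u => mem_b x u _ hxr (lt_of_le_of_lt (hna u) hηr)
  have hrem : ∀ u, C' * ((‖rot u x‖ +
      ‖((w (u + sp (rot u x, 0)), w (u + sm (rot u x, 0))) : ℝ × ℝ)‖) *
      ‖((w (u + sp (rot u x, 0)), w (u + sm (rot u x, 0))) : ℝ × ℝ)‖) ≤
      δ * (|w (u + sp (rot u x, 0))| + |w (u + sm (rot u x, 0))|) := by
    intro u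
    rw [norm_rot]
    have h3 := hna u
    have h4 := hna2 u
    have h5 : C' * (‖x‖ + ‖((w (u + sp (rot u x, 0)), w (u + sm (rot u x, 0))) : ℝ × ℝ)‖) ≤ δ := by
      rw [hδdef, hL]
      have h6 := mul_le_mul_of_nonneg_left (add_le_add_right h3 ‖x‖) hC'.le
      nlinarith [mul_nonneg hLm.le hs0, mul_nonneg hLp.le hs0, mul_nonneg hC'.le hs0]
    calc _ = C' * (‖x‖ + ‖((w (u + sp (rot u x, 0)), w (u + sm (rot u x, 0))) : ℝ × ℝ)‖) *
          ‖((w (u + sp (rot u x, 0)), w (u + sm (rot u x, 0))) : ℝ × ℝ)‖ := by ring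
      _ ≤ _ := mul_le_mul h5 h4 (norm_nonneg _) hδ0
  -- the weights
  have h3a : Real.sqrt 3 ≤ 2 := by
    rw [show (2 : ℝ) = Real.sqrt 4 by
      rw [show (4 : ℝ) = 2 ^ 2 by norm_num, Real.sqrt_sq (by norm_num)]]
    exact Real.sqrt_le_sqrt (by norm_num)
  have h3b : 1 ≤ Real.sqrt 3 := Real.one_le_sqrt.2 (by norm_num)
  have h30 : 0 < Real.sqrt 3 := by linarith
  have kk3 : ∀ u, |k3 (rot u x)| ≤ ‖x‖ := fun u => (abs_k3 _).trans
    ((norm_rot_fst u x).le.trans (fst_le x))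
  have ks3 : ∀ u, |s3 (rot u x)| ≤ ‖x‖ := fun u => (abs_s3 _).trans
    ((norm_rot_fst u x).le.trans (fst_le x))
  have kk5 : ∀ u, |k5 (rot u x)| ≤ ‖x‖ := fun u => (abs_k5 _).trans
    ((norm_rot_snd u x).le.trans (snd_le x))
  have ks5 : ∀ u, |s5 (rot u x)| ≤ ‖x‖ := fun u => (abs_s5 _).trans
    ((norm_rot_snd u x).le.trans (snd_le x))
  have hxx : C' * ‖x‖ ^ 2 ≤ C' * ‖x‖ := by
    apply mul_le_mul_of_nonneg_left _ hC'.le
    nlinarith
  have hδx : (14 + C') * ‖x‖ ≤ δ := by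
    rw [hδdef, hL]
    nlinarith [mul_nonneg hLm.le hs0, mul_nonneg hLp.le hs0, mul_nonneg hC'.le hs0,
      mul_nonneg hC'.le hη0]
  have hκp1 : ∀ u, |κp (rot u x) - 1| ≤ δ := by
    intro u
    have h1 := hT.kp _ (hmem u)
    rw [norm_rot] at h1
    have h2 := lin_bound (kk3 u) (ks3 u) (kk5 u) (ks5 u) h30.le h3a
      (by positivity : 0 ≤ Real.sqrt 3 / 2) (by linarith)
    have h3 := abs_le.1 h1
    have h4 := abs_le.1 h2
    rw [abs_le]
    constructor <;> nlinarith [h3.1, h3.2, h4.1, h4.2]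
  have hκm1 : ∀ u, |κm (rot u x) - 1| ≤ δ := by
    intro u
    have h1 := hT.km _ (hmem u)
    rw [norm_rot] at h1
    have h2 := lin_bound (kk3 u) (b := -s3 (rot u x)) (by rw [abs_neg]; exact ks3 u) (kk5 u)
      (d := -s5 (rot u x)) (by rw [abs_neg]; exact ks5 u) h30.le h3a
      (by positivity : 0 ≤ Real.sqrt 3 / 2) (by linarith)
    have h3 := abs_le.1 h1
    have h4 := abs_le.1 h2
    rw [abs_le]
    constructor <;> nlinarith [h3.1, h3.2, h4.1, h4.2]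
  have cκp : Continuous (fun u => κp (rot u x)) :=
    hT.cp.continuousOn.comp_continuous (continuous_rot x) hmem
  have cκm : Continuous (fun u => κm (rot u x)) :=
    hT.cm.continuousOn.comp_continuous (continuous_rot x) hmem
  have hz : 1 / Real.sqrt 3 ≤ 1 := by rw [div_le_one h30]; exact h3b
  have hz0 : 0 ≤ 1 / Real.sqrt 3 := by positivity
  obtain ⟨P1, P2⟩ := hH δ (Real.pi / 3) (Real.pi / 3) (-(Real.pi / 3)) (-(1 / Real.sqrt 3))
    (-(2 * (1 / Real.sqrt 3))) w w' _ _ _ _ _ _ _ _ _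
    (by rw [abs_le]; constructor <;> linarith) (by rw [abs_le]; constructor <;> linarith)
    hδ hw h0 hs1 hs1 hs2 hθp hθp2
    (fun u => by
      have h1 := (hT.tp _ (hmem2 u)).trans (hrem u)
      refine le_trans (le_of_eq ?_) h1
      congr 1
      simp only
      ring) cκp hκp1
  obtain ⟨M1, M2⟩ := hH δ (-(Real.pi / 3)) (Real.pi / 3) (-(Real.pi / 3)) (2 * (1 / Real.sqrt 3))
    (1 / Real.sqrt 3) w w' _ _ _ _ _ _ _ _ _
    (by rw [abs_le]; constructor <;> linarith) (by rw [abs_le]; constructor <;> linarith)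
    hδ hw h0 hs2 hs1 hs2 hθm hθm2
    (fun u => by
      have h1 := (hT.tm _ (hmem2 u)).trans (hrem u)
      refine le_trans (le_of_eq ?_) h1
      congr 1
      simp only
      ring) cκm hκm1
  have cs1 := hs1.cont
  have cs2 := hs2.cont
  have cA1 : Continuous (fun u => w (u + sp (rot u x, 0))) :=
    hw.con.comp (continuous_id.add cs1)
  have cA2 : Continuous (fun u => w (u + sm (rot u x, 0))) :=
    hw.con.comp (continuous_id.add cs2)
  have cB1 : Continuous (fun u => w (u + sp (rot u x,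
      (w (u + sp (rot u x, 0)), w (u + sm (rot u x, 0)))))) := by
    have := hw.con.comp ((continuous_id.add cs1).add hθp.con)
    refine this.congr ?_
    intro u
    simp only [Function.comp_apply, Pi.add_apply, id_eq, add_add_sub_cancel]
  have cB2 : Continuous (fun u => w (u + sm (rot u x,
      (w (u + sp (rot u x, 0)), w (u + sm (rot u x, 0)))))) := by
    have := hw.con.comp ((continuous_id.add cs2).add hθm.con)
    refine this.congr ?_
    intro u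
    simp only [Function.comp_apply, Pi.add_apply, id_eq, add_add_sub_cancel]
  have ccc : Continuous (fun u => cc sp (rot u x, 0)) := by
    have h1 : Continuous (fun u => zh (rot u x) (sp (rot u x, 0))) :=
      contDiff_zh.continuous.comp ((continuous_rot x).prodMk cs1)
    refine (Complex.continuous_re.comp h1).congr ?_
    intro u
    simp [cc]
  simp only [add_add_sub_cancel] at P1 P2 M1 M2
  set Q : ℝ := q2 w' with hQ
  have hQ0 : 0 ≤ Q := q2_nonneg w'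
  -- bilinear integrals
  rw [int_self hw, int_p hw] at P2
  rw [int_self hw, int_m hw] at M2
  have q11 := (hB δ (Real.pi / 3) (Real.pi / 3) w w' _ _ _ _ hδ hw h0 hs1.per hs1.der hs1.con
    hs1.bd' hs1.bd hs1.per hs1.der hs1.con hs1.bd' hs1.bd).2
  have q22 := (hB δ (-(Real.pi / 3)) (-(Real.pi / 3)) w w' _ _ _ _ hδ hw h0 hs2.per hs2.der
    hs2.con hs2.bd' hs2.bd hs2.per hs2.der hs2.con hs2.bd' hs2.bd).2
  have q12 := (hB δ (Real.pi / 3) (-(Real.pi / 3)) w w' _ _ _ _ hδ hw h0 hs1.per hs1.der hs1.con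
    hs1.bd' hs1.bd hs2.per hs2.der hs2.con hs2.bd' hs2.bd).2
  have sq0 : ∀ c : ℝ, ∫ u in (0 : ℝ)..(2 * Real.pi), w (u + c) * w (u + c) = q2 w := by
    intro c
    rw [integral_shift (fun t => w t * w t) (fun t => by simp only [hw.per]) c]
    unfold q2
    apply intervalIntegral.integral_congr
    intro u _
    simp only
    ring
  have sq1 : ∫ u in (0 : ℝ)..(2 * Real.pi), w (u + Real.pi / 3) * w (u + -(Real.pi / 3)) =
      iP w := by
    have h1 := integral_shift (fun t => w (t + 2 * Real.pi / 3) * w t)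
      (fun t => by
        show w (t + 2 * Real.pi + 2 * Real.pi / 3) * w (t + 2 * Real.pi) = _
        rw [show t + 2 * Real.pi + 2 * Real.pi / 3 = t + 2 * Real.pi / 3 + 2 * Real.pi by ring,
          hw.per, hw.per]) (-(Real.pi / 3))
    unfold iP
    rw [← h1]
    apply intervalIntegral.integral_congr
    intro u _
    show _ = w (u + -(Real.pi / 3) + 2 * Real.pi / 3) * w (u + -(Real.pi / 3))
    rw [show u + -(Real.pi / 3) + 2 * Real.pi / 3 = u + Real.pi / 3 by ring]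
  rw [sq0, ← hQ] at q11 q22
  rw [sq1, ← hQ] at q12
  have hq := q2_le hw h0
  rw [← hQ] at hq
  have main := int_lin (fun u => cc sp (rot u x, 0))
    (fun u => κp (rot u x) * w (u + sp (rot u x,
      (w (u + sp (rot u x, 0)), w (u + sm (rot u x, 0))))))
    (fun u => κm (rot u x) * w (u + sm (rot u x,
      (w (u + sp (rot u x, 0)), w (u + sm (rot u x, 0))))))
    (fun u => w (u + sp (rot u x, 0)) * w (u + sp (rot u x, 0)))
    (fun u => w (u + sm (rot u x, 0)) * w (u + sm (rot u x, 0)))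
    (fun u => w (u + sp (rot u x, 0)) * w (u + sm (rot u x, 0)))
    (fun u => |w (u + sp (rot u x, (w (u + sp (rot u x, 0)), w (u + sm (rot u x, 0)))))
      - w (u + sp (rot u x, 0))|)
    (fun u => |w (u + sm (rot u x, (w (u + sp (rot u x, 0)), w (u + sm (rot u x, 0)))))
      - w (u + sm (rot u x, 0))|)
    ccc (cκp.mul cB1) (cκm.mul cB2) (cA1.mul cA1) (cA2.mul cA2) (cA1.mul cA2)
    (cB1.sub cA1).abs (cB2.sub cA2).abs C₁ (η + ‖x‖)
  have ecf : ∫ u in (0 : ℝ)..(2 * Real.pi), cf C₁ η sp sm κp κm w x u =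
      ∫ u in (0 : ℝ)..(2 * Real.pi), (cc sp (rot u x, 0)
      + κp (rot u x) * w (u + sp (rot u x, (w (u + sp (rot u x, 0)), w (u + sm (rot u x, 0)))))
      + κm (rot u x) * w (u + sm (rot u x, (w (u + sp (rot u x, 0)), w (u + sm (rot u x, 0)))))
      - 5 / 6 * (w (u + sp (rot u x, 0)) * w (u + sp (rot u x, 0))
        + w (u + sm (rot u x, 0)) * w (u + sm (rot u x, 0)))
      - 4 / 3 * (w (u + sp (rot u x, 0)) * w (u + sm (rot u x, 0)))
      - C₁ * ((η + ‖x‖) * (w (u + sp (rot u x, 0)) * w (u + sp (rot u x, 0))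
        + w (u + sm (rot u x, 0)) * w (u + sm (rot u x, 0))
        + |w (u + sp (rot u x, (w (u + sp (rot u x, 0)), w (u + sm (rot u x, 0)))))
          - w (u + sp (rot u x, 0))|
        + |w (u + sm (rot u x, (w (u + sp (rot u x, 0)), w (u + sm (rot u x, 0)))))
          - w (u + sm (rot u x, 0))|))) := by
    apply intervalIntegral.integral_congr
    intro u _
    simp only [cf, z0, z1, sq]
  rw [ecf]
  refine le_trans ?_ (le_of_eq main.symm)
  exact fin_arith hL0 hCb hCh hC₁ hs0 hQ0 hδ hδdef hq q11 q22 q12 P1 M1 P2 M2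

end Pool.Agent.Helper12.LT
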